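import Pool.Graph.R_seed8.Results.MP_13da68_co.PolynomialCorrection

/-!
# Tiles contained in a finite subset of an abelian group
-/

set_option autoImplicit false

namespace Pool.Agent.KS6_40.TI

open scoped Pointwise
open Pool.Agent.Results.MP_13da68_co.PolynomialCorrection (few_subsets small_subsets)

/-- `64 a ≤ 81 (4/3)^a` -/
theorem numeric (a : ℕ) : (64 : ℝ) * a ≤ 81 * (4 / 3) ^ a := by
  rcases Nat.lt_or_ge a 3 with h | h
  · interval_cases a <;> norm_num
  · have key : ∀ b : ℕ, 3 ≤ b → (64 : ℝ) * b ≤ 81 * (4 / 3) ^ b ∧ (64 : ℝ) ≤ 27 * (4 / 3) ^ b := by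
      intro b hb
      induction b, hb using Nat.le_induction with
      | base => norm_num
      | succ b _ ih =>
        obtain ⟨h1, h2⟩ := ih
        rw [pow_succ]
        push_cast
        constructor <;> nlinarith
    exact (key a h).1

/-- common transversals of a partition: their number is at most the product of the sizes -/
theorem transversals {α ι : Type*} [DecidableEq α] [DecidableEq ι] [Nonempty α] (M : Finset α)
    (I : Finset ι) (C : ι → Finset α)
    (hC : ∀ i ∈ I, C i ⊆ M) (hd : ∀ m ∈ M, ∃! i, i ∈ I ∧ m ∈ C i)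
    (F : Finset (Finset α)) (hF : ∀ S ∈ F, S ⊆ M ∧ ∀ i ∈ I, (S ∩ C i).card = 1) :
    F.card ≤ ∏ i ∈ I, (C i).card ∧ ∑ i ∈ I, (C i).card = M.card := by
  constructor
  · rw [← Finset.card_pi]
    have hne : ∀ S ∈ F, ∀ i ∈ I, ∃ a, a ∈ C i ∧ S ∩ C i = {a} := by
      intro S hS i hi
      obtain ⟨a, ha⟩ := Finset.card_eq_one.1 ((hF S hS).2 i hi)
      refine ⟨a, ?_, ha⟩
      have : a ∈ S ∩ C i := by rw [ha]; simp
      exact (Finset.mem_inter.1 this).2
    choose! f hf using hne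
    refine Finset.card_le_card_of_injOn (fun S => fun i _ => f S i) ?_ ?_
    · intro S hS
      rw [Finset.mem_coe, Finset.mem_pi]
      intro i hi
      exact (hf S hS i hi).1
    · intro S hS S' hS' heq
      have hS : S ∈ F := hS
      have hS' : S' ∈ F := hS'
      have hfe : ∀ i ∈ I, f S i = f S' i := by
        intro i hi
        exact congrFun (congrFun heq i) hi
      ext m
      constructor
      · intro hm
        obtain ⟨i, ⟨hi, hmi⟩, -⟩ := hd m ((hF S hS).1 hm)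
        have h2 : m ∈ S ∩ C i := Finset.mem_inter.2 ⟨hm, hmi⟩
        rw [(hf S hS i hi).2, hfe i hi, ← (hf S' hS' i hi).2] at h2
        exact (Finset.mem_inter.1 h2).1
      · intro hm
        obtain ⟨i, ⟨hi, hmi⟩, -⟩ := hd m ((hF S' hS').1 hm)
        have h2 : m ∈ S' ∩ C i := Finset.mem_inter.2 ⟨hm, hmi⟩
        rw [(hf S' hS' i hi).2, ← hfe i hi, ← (hf S hS i hi).2] at h2
        exact (Finset.mem_inter.1 h2).1
  · have hM : M = I.biUnion C := by
      ext m
      rw [Finset.mem_biUnion]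
      constructor
      · intro hm
        obtain ⟨i, ⟨hi, hmi⟩, -⟩ := hd m hm
        exact ⟨i, hi, hmi⟩
      · rintro ⟨i, hi, hm⟩
        exact hC i hi hm
    rw [hM, Finset.card_biUnion]
    intro i hi j hj hij
    show Disjoint (C i) (C j)
    rw [Finset.disjoint_left]
    intro m hm hm'
    obtain ⟨k, -, hk⟩ := hd m (hC i hi hm)
    exact hij ((hk i ⟨hi, hm⟩).trans (hk j ⟨hj, hm'⟩).symm)

/-- the refined bound: `(81/64)^|I| (4/3)^|M|` -/
theorem transversals' {α ι : Type*} [DecidableEq α] [DecidableEq ι] [Nonempty α] (M : Finset α)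
    (I : Finset ι) (C : ι → Finset α)
    (hC : ∀ i ∈ I, C i ⊆ M) (hd : ∀ m ∈ M, ∃! i, i ∈ I ∧ m ∈ C i)
    (F : Finset (Finset α)) (hF : ∀ S ∈ F, S ⊆ M ∧ ∀ i ∈ I, (S ∩ C i).card = 1) :
    (F.card : ℝ) ≤ (81 / 64) ^ I.card * (4 / 3) ^ M.card := by
  obtain ⟨h1, h2⟩ := transversals M I C hC hd F hF
  calc (F.card : ℝ) ≤ ((∏ i ∈ I, (C i).card : ℕ) : ℝ) := by exact_mod_cast h1
    _ = ∏ i ∈ I, ((C i).card : ℝ) := by push_cast; rfl
    _ ≤ ∏ i ∈ I, ((81 / 64 : ℝ) * (4 / 3) ^ (C i).card) := by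
        apply Finset.prod_le_prod
        · intro i _; positivity
        · intro i _
          have := numeric (C i).card
          linarith
    _ = (81 / 64) ^ I.card * (4 / 3) ^ M.card := by
        rw [Finset.prod_mul_distrib, Finset.prod_const, Finset.prod_pow_eq_pow_sum, h2]

variable {G : Type*} [AddCommGroup G] [DecidableEq G]

/-- the pair `(S, T)` is a tiling pair -/
def Pair (S : Finset G) (T : Set G) : Prop :=
  ∀ x : G, ∃! p : G × G, p.1 ∈ S ∧ p.2 ∈ T ∧ x = p.1 + p.2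

omit [DecidableEq G] in
theorem Pair.uniq {S : Finset G} {T : Set G} (h : Pair S T)
    {x s s' : G} (hs : s ∈ S) (hs' : s' ∈ S) (ht : x - s ∈ T) (ht' : x - s' ∈ T) :
    s = s' := by
  have := (h x).unique (y₁ := (s, x - s)) (y₂ := (s', x - s')) ⟨hs, ht, by simp⟩
    ⟨hs', ht', by simp⟩
  exact congrArg Prod.fst this

omit [DecidableEq G] in
/-- the complement can be chosen to contain a given element -/
theorem Pair.shift {S : Finset G} {T : Set G} (h : Pair S T) (a : G) :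
    ∃ T' : Set G, Pair S T' ∧ a ∈ T' := by
  obtain ⟨⟨s0, t0⟩, ⟨_, ht0, _⟩, _⟩ := h 0
  have ht0 : t0 ∈ T := ht0
  refine ⟨{x | x - a + t0 ∈ T}, fun x => ?_, ?_⟩
  · obtain ⟨⟨s, t⟩, ⟨h1, h2, h3⟩, h4⟩ := h (x - a + t0)
    have h1 : s ∈ S := h1
    have h2 : t ∈ T := h2
    have h3 : x - a + t0 = s + t := h3
    refine ⟨(s, t + a - t0), ⟨h1, ?_, ?_⟩, ?_⟩
    · show t + a - t0 - a + t0 ∈ T
      have : t + a - t0 - a + t0 = t := by abel
      rwa [this]
    · show x = s + (t + a - t0)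
      have : s + (t + a - t0) = (s + t) + a - t0 := by abel
      rw [this, ← h3]; abel
    · rintro ⟨s', t'⟩ ⟨h5, h6, h7⟩
      have h5 : s' ∈ S := h5
      have h6 : t' - a + t0 ∈ T := h6
      have h7 : x = s' + t' := h7
      have := h4 (s', t' - a + t0) ⟨h5, h6, by rw [h7]; abel⟩
      simp only [Prod.mk.injEq] at this ⊢
      refine ⟨this.1, ?_⟩
      rw [← this.2]; abel
  · show a - a + t0 ∈ T
    rw [sub_self, zero_add]; exact ht0

/-- all the tiles in `M` having a complement with a given trace -/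
theorem fibre {M : Finset G} (F : Finset (Finset G)) (T : Finset G → Set G)
    (hF : ∀ S ∈ F, S ⊆ M ∧ Pair S (T S))
    (htr : ∀ S ∈ F, ∀ S' ∈ F, ∀ w ∈ M + M, -w ∈ T S ↔ -w ∈ T S') :
    F.card ^ 3 ≤ 3 ^ M.card ∧
      ∀ S0 ∈ F, (F.card : ℝ) ≤ (81 / 64) ^ S0.card * (4 / 3) ^ M.card := by
  classical
  rcases F.eq_empty_or_nonempty with rfl | ⟨S0, hS0⟩
  · simp
  have main : ∀ S0 ∈ F,
      (∀ i ∈ S0, ((M.filter fun m => -(i + m) ∈ T S0)) ⊆ M) ∧
      (∀ m ∈ M, ∃! i, i ∈ S0 ∧ m ∈ M.filter fun m => -(i + m) ∈ T S0) ∧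
      ∀ S ∈ F, S ⊆ M ∧ ∀ i ∈ S0, (S ∩ M.filter fun m => -(i + m) ∈ T S0).card = 1 := by
    intro S0 hS0
    obtain ⟨hS0c, hP0⟩ := hF S0 hS0
    refine ⟨fun i _ => Finset.filter_subset _ _, ?_, ?_⟩
    · intro m hm
      obtain ⟨⟨s0, t0⟩, ⟨h1, h2, h3⟩, h4⟩ := hP0 (-m)
      refine ⟨s0, ⟨h1, Finset.mem_filter.2 ⟨hm, ?_⟩⟩, ?_⟩
      · have h3' : -m = s0 + t0 := h3
        have : -(s0 + m) = t0 := by
          have : -(s0 + m) = -m - s0 := by abel
          rw [this, h3']; abel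
        show -(s0 + m) ∈ T S0
        rw [this]; exact h2
      · rintro s1 ⟨h5, h6⟩
        have h7 := (Finset.mem_filter.1 h6).2
        have := h4 (s1, -m - s1) ⟨h5, ?_, by simp⟩
        · exact congrArg Prod.fst this
        · have e : -m - s1 = -(s1 + m) := by abel
          show -m - s1 ∈ T S0
          rw [e]; exact h7
    · intro S hS
      obtain ⟨hSc, hP⟩ := hF S hS
      refine ⟨hSc, fun s0 hs0 => ?_⟩
      rw [Finset.card_eq_one]
      obtain ⟨⟨s, t'⟩, ⟨h1, h2, h3⟩, -⟩ := hP (-s0)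
      have h1 : s ∈ S := h1
      have h2 : t' ∈ T S := h2
      have h3 : -s0 = s + t' := h3
      have e : -(s0 + s) = t' := by
        have : -(s0 + s) = -s0 - s := by abel
        rw [this, h3]; abel
      refine ⟨s, ?_⟩
      ext m
      rw [Finset.mem_inter, Finset.mem_filter, Finset.mem_singleton]
      constructor
      · rintro ⟨hm, hmc, hmT⟩
        have h5 : -(s0 + m) ∈ T S :=
          (htr S hS S0 hS0 _ (Finset.add_mem_add (hS0c hs0) hmc)).2 hmT
        refine hP.uniq (x := -s0) hm h1 ?_ ?_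
        · have : -s0 - m = -(s0 + m) := by abel
          rw [this]; exact h5
        · have : -s0 - s = -(s0 + s) := by abel
          rw [this, e]; exact h2
      · rintro rfl
        refine ⟨h1, hSc h1, ?_⟩
        exact (htr S hS S0 hS0 _ (Finset.add_mem_add (hS0c hs0) (hSc h1))).1 (by rw [e]; exact h2)
  constructor
  · obtain ⟨a, b, c⟩ := main S0 hS0
    exact Pool.Agent.Results.MP_13da68_co.PolynomialCorrection.transversals M S0 _ a b F c
  · intro S0 hS0
    obtain ⟨a, b, c⟩ := main S0 hS0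
    exact transversals' M S0 _ a b F c

/-- the trace of the complement of a large tile is small -/
theorem trace_small {M S : Finset G} {T : Set G} (hS : S ⊆ M)
    (hP : Pair S T) (w : Finset G) (hw : w ⊆ M + M) (hwT : ∀ x ∈ w, -x ∈ T) :
    S.card * w.card ≤ (M + M - M).card := by
  rw [← Finset.card_product]
  refine Finset.card_le_card_of_injOn (fun p => p.2 - p.1) ?_ ?_
  · rintro ⟨s, u⟩ hp
    rw [Finset.mem_coe, Finset.mem_product] at hp
    exact Finset.sub_mem_sub (hw hp.2) (hS hp.1)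
  · rintro ⟨s, u⟩ hp ⟨s', u'⟩ hp' he
    rw [Finset.mem_coe, Finset.mem_product] at hp hp'
    have he : u - s = u' - s' := he
    have := (hP (s - u)).unique (y₁ := (s, -u)) (y₂ := (s', -u')) ⟨hp.1, hwT _ hp.2, by abel⟩
      ⟨hp'.1, hwT _ hp'.2, by
        show s - u = s' + -u'
        rw [← neg_sub u s, he]; abel⟩
    simp only [Prod.mk.injEq, neg_inj] at this
    rw [this.1, this.2]

/-- the tiles of `G` contained in `M`, with a bound `N` for the trace and a bound `B` for the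
fibres -/
theorem count_traces {M : Finset G} (F : Finset (Finset G)) (T : Finset G → Set G)
    (w0 : G) (hw0 : w0 ∈ M + M)
    (hF : ∀ S ∈ F, S ⊆ M ∧ Pair S (T S) ∧ -w0 ∈ T S) (N : ℕ)
    (hN : ∀ S ∈ F, ∀ w : Finset G, w ⊆ M + M → (∀ x ∈ w, -x ∈ T S) → w.card ≤ N) (B : ℝ)
    (hB0 : 0 ≤ B)
    (hB : ∀ F' ⊆ F, (∀ S ∈ F', ∀ S' ∈ F', ∀ w ∈ M + M, -w ∈ T S ↔ -w ∈ T S') →
      (F'.card : ℝ) ≤ B) :
    (F.card : ℝ) ≤ B * ((M + M).card + 1) ^ (N - 1) := by
  classical
  let tr : Finset G → Finset G := fun S => (M + M).filter fun x => -x ∈ T S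
  have htr0 : ∀ S ∈ F, w0 ∈ tr S := fun S hS => Finset.mem_filter.2 ⟨hw0, (hF S hS).2.2⟩
  let tr' : Finset G → Finset G := fun S => (tr S).erase w0
  have hfib : ∀ w ∈ F.image tr', (F.filter fun S => tr' S = w).card ≤ ⌊B⌋₊ := by
    intro w _
    apply Nat.le_floor
    apply hB _ (Finset.filter_subset _ _)
    intro S hS S' hS' x hx
    obtain ⟨hSF, hS1⟩ := Finset.mem_filter.1 hS
    obtain ⟨hSF', hS2⟩ := Finset.mem_filter.1 hS'
    by_cases hxw : x = w0
    · rw [hxw]
      exact ⟨fun _ => (hF S' hSF').2.2, fun _ => (hF S hSF).2.2⟩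
    · have hx1 : x ∈ tr' S ↔ x ∈ tr' S' := by rw [hS1, hS2]
      simp only [tr', tr, Finset.mem_erase, Finset.mem_filter] at hx1
      constructor
      · intro h; exact (hx1.1 ⟨hxw, hx, h⟩).2.2
      · intro h; exact (hx1.2 ⟨hxw, hx, h⟩).2.2
  have h2 : F.card ≤ ⌊B⌋₊ * (F.image tr').card := Finset.card_le_mul_card_image F _ hfib
  have h3 : (F.image tr').card ≤ ((M + M).card + 1) ^ (N - 1) := by
    apply few_subsets
    intro w hw
    obtain ⟨S, hS, rfl⟩ := Finset.mem_image.1 hw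
    refine ⟨(Finset.erase_subset _ _).trans (Finset.filter_subset _ _), ?_⟩
    have h4 := hN S hS (tr S) (Finset.filter_subset _ _) (fun x hx => (Finset.mem_filter.1 hx).2)
    rw [Finset.card_erase_of_mem (htr0 S hS)]
    omega
  calc (F.card : ℝ) ≤ (⌊B⌋₊ : ℝ) * (F.image tr').card := by exact_mod_cast h2
    _ ≤ B * ((M + M).card + 1) ^ (N - 1) := by
      apply mul_le_mul (Nat.floor_le hB0) _ (Nat.cast_nonneg _) hB0
      exact_mod_cast h3

end Pool.Agent.KS6_40.TI
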