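import Pool.Agent.KS6_40.TI.Core

/-!
# The number of tiles contained in a finite subset of an abelian group
-/

set_option autoImplicit false

namespace Pool.Agent.KS6_40.TI

universe u

open scoped Pointwise
open Pool.Agent.Results.MP_13da68_co.PolynomialCorrection (small_subsets root_pow)

/-- the cube root of three -/
noncomputable abbrev r3 : ℝ := (3 : ℝ) ^ ((1 : ℝ) / 3)

theorem r3_pow : r3 ^ 3 = 3 := by
  have := root_pow 1
  rwa [pow_one, pow_one] at this

theorem r3_pos : 0 < r3 := by positivity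

theorem r3_gt : 4 / 3 < r3 := by
  by_contra h
  push Not at h
  have h1 : r3 ^ 3 ≤ (4 / 3) ^ 3 := pow_le_pow_left₀ r3_pos.le h 3
  rw [r3_pow] at h1
  norm_num at h1

/-- polynomials are dominated by exponentials -/
theorem poly_exp (k : ℕ) (q : ℝ) (hq0 : 0 ≤ q) (hq1 : q < 1) :
    ∃ B : ℝ, 0 ≤ B ∧ ∀ v : ℕ, (v : ℝ) ^ k * q ^ v ≤ B := by
  have h := tendsto_pow_const_mul_const_pow_of_abs_lt_one k (r := q)
    (by rwa [abs_of_nonneg hq0])
  obtain ⟨B, hB⟩ := h.bddAbove_range
  exact ⟨max B 0, le_max_right _ _, fun v => (hB ⟨v, rfl⟩).trans (le_max_left _ _)⟩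

theorem main (K : ℕ) : ∃ A : ℝ, 0 < A ∧ ∀ (G : Type u) [AddCommGroup G] [DecidableEq G]
    (M : Finset G), (M + M - M).card ≤ K * M.card →
    ({S : Finset G | S ⊆ M ∧ ∃ T : Set G, Pair S T}.ncard : ℝ) ≤
      A * ((M + M).card + 1) ^ (3 * K - 1) * r3 ^ M.card := by
  classical
  -- the gain
  set L : ℕ := 3 * K + 1 with hL
  obtain ⟨q, hq0, hq1, hqL⟩ : ∃ q : ℝ, 0 ≤ q ∧ q < 1 ∧ q ^ L = (4 / 3) / r3 := by
    have h1 : (0 : ℝ) ≤ (4 / 3) / r3 := by positivity
    have h2 : (4 / 3) / r3 < 1 := by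
      rw [div_lt_one r3_pos]; exact r3_gt
    have hL0 : (L : ℝ) ≠ 0 := by
      have : L ≠ 0 := by omega
      exact_mod_cast this
    refine ⟨((4 / 3) / r3) ^ ((1 : ℝ) / L), Real.rpow_nonneg h1 _, ?_, ?_⟩
    · apply Real.rpow_lt_one h1 h2
      positivity
    · rw [← Real.rpow_natCast, ← Real.rpow_mul h1, one_div, inv_mul_cancel₀ hL0, Real.rpow_one]
  obtain ⟨B, hB0, hB⟩ := poly_exp (16 * K) q hq0 hq1
  refine ⟨2 + (K + 1) ^ (16 * K) * B, by positivity, fun G _ _ M hK => ?_⟩
  set v := M.card with hv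
  rcases M.eq_empty_or_nonempty with rfl | hM
  · have h0 : {S : Finset G | S ⊆ ∅ ∧ ∃ T : Set G, Pair S T} = ∅ := by
      ext S
      simp only [Set.mem_ofPred_eq, Set.mem_empty_iff_false, iff_false, not_and, not_exists]
      intro hS T hT
      obtain ⟨⟨s, t⟩, ⟨h1, _, _⟩, _⟩ := hT 0
      exact absurd (hS h1) (Finset.notMem_empty _)
    rw [h0, Set.ncard_empty]
    push_cast
    positivity
  have hv0 : 0 < v := Finset.card_pos.2 hM
  obtain ⟨m0, hm0⟩ := hM
  have hw0 : m0 + m0 ∈ M + M := Finset.add_mem_add hm0 hm0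
  have hK1 : 1 ≤ K := by
    have h1 : 0 < (M + M - M).card := Finset.card_pos.2 ⟨_, Finset.sub_mem_sub hw0 hm0⟩
    by_contra h
    have : K = 0 := by omega
    rw [this, zero_mul] at hK
    omega
  have hMM : (M + M).card ≤ K * v := by
    refine le_trans ?_ hK
    refine Finset.card_le_card_of_injOn (fun x => x - m0) ?_ ?_
    · intro x hx
      exact Finset.sub_mem_sub hx hm0
    · intro x _ y _ hxy
      exact sub_left_injective hxy
  set F := M.powerset.filter fun S => ∃ T : Set G, Pair S T with hF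
  have hcard : {S : Finset G | S ⊆ M ∧ ∃ T : Set G, Pair S T}.ncard = F.card := by
    rw [← Set.ncard_coe_finset]
    congr 1
    ext S
    simp [hF]
  rw [hcard]
  set R : ℝ := r3 ^ v with hR
  have hR0 : 0 < R := by positivity
  have hR3 : R ^ 3 = 3 ^ v := root_pow v
  have hex : ∀ S ∈ F, ∃ T : Set G, Pair S T ∧ -(m0 + m0) ∈ T := by
    intro S hS
    obtain ⟨T, hT⟩ := (Finset.mem_filter.1 hS).2
    exact hT.shift _
  choose! T hT using hex
  have hFsub : ∀ S ∈ F, S ⊆ M := fun S hS => Finset.mem_powerset.1 (Finset.mem_filter.1 hS).1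
  set F1 := F.filter fun S => 16 * S.card ≤ v with hF1
  set F3 := F.filter fun S => v < 16 * S.card ∧ L * S.card ≤ K * v with hF3
  set F4 := F.filter fun S => K * v < L * S.card with hF4
  have hsplit : F.card ≤ F1.card + F3.card + F4.card := by
    have : F ⊆ F1 ∪ F3 ∪ F4 := by
      intro S hS
      by_cases h1 : 16 * S.card ≤ v
      · exact Finset.mem_union.2 (Or.inl (Finset.mem_union.2 (Or.inl
          (Finset.mem_filter.2 ⟨hS, h1⟩))))
      · by_cases h2 : L * S.card ≤ K * v
        · exact Finset.mem_union.2 (Or.inl (Finset.mem_union.2 (Or.inr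
            (Finset.mem_filter.2 ⟨hS, by omega, h2⟩))))
        · exact Finset.mem_union.2 (Or.inr (Finset.mem_filter.2 ⟨hS, by omega⟩))
    calc F.card ≤ (F1 ∪ F3 ∪ F4).card := Finset.card_le_card this
      _ ≤ (F1 ∪ F3).card + F4.card := Finset.card_union_le _ _
      _ ≤ _ := by
        have := Finset.card_union_le F1 F3
        omega
  -- small tiles
  have h1 : (F1.card : ℝ) ≤ R := by
    have h := small_subsets M F1 (by
      intro S hS
      have hS1 := Finset.mem_filter.1 hS
      exact ⟨hFsub S hS1.1, hS1.2⟩)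
    have h2 : R ^ 48 = (3 : ℝ) ^ (16 * M.card) := by
      have h3 : R ^ 48 = (R ^ 3) ^ 16 := by rw [← pow_mul R 3 16]
      rw [h3, hR3, ← pow_mul, mul_comm]
    rw [← h2] at h
    exact le_of_pow_le_pow_left₀ (by norm_num) hR0.le h
  -- tiles of medium size
  have h3 : (F3.card : ℝ) ≤ R * ((K + 1) ^ (16 * K) * B) := by
    have hfF : ∀ S ∈ F3, S ∈ F := fun S hS => (Finset.mem_filter.1 hS).1
    have h := count_traces (M := M) F3 T (m0 + m0) hw0
      (fun S hS => ⟨hFsub S (hfF S hS), (hT S (hfF S hS)).1, (hT S (hfF S hS)).2⟩) (16 * K)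
      (by
        intro S hS w hw hwT
        obtain ⟨_, h5, _⟩ := Finset.mem_filter.1 hS
        have h6 := trace_small (hFsub S (hfF S hS)) (hT S (hfF S hS)).1 w hw hwT
        have h7 : v * w.card ≤ v * (16 * K) := by
          calc v * w.card ≤ 16 * S.card * w.card := Nat.mul_le_mul_right _ h5.le
            _ = 16 * (S.card * w.card) := by ring
            _ ≤ 16 * (K * v) := Nat.mul_le_mul_left _ (h6.trans hK)
            _ = v * (16 * K) := by ring
        exact Nat.le_of_mul_le_mul_left h7 hv0) ((r3 * q) ^ v) (by positivity)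
      (by
        intro F' hF' htr
        rcases F'.eq_empty_or_nonempty with rfl | ⟨S0, hS0⟩
        · simp only [Finset.card_empty, Nat.cast_zero]; positivity
        have h5 := (fibre F' T (fun S hS => ⟨hFsub S (hfF S (hF' hS)), (hT S (hfF S (hF' hS))).1⟩)
          htr).2 S0 hS0
        refine h5.trans ?_
        obtain ⟨_, _, h6⟩ := Finset.mem_filter.1 (hF' hS0)
        refine le_of_pow_le_pow_left₀ (n := L) (by omega) (by positivity) ?_
        calc ((81 / 64 : ℝ) ^ S0.card * (4 / 3) ^ v) ^ L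
            = (81 / 64) ^ (L * S0.card) * (4 / 3) ^ (L * v) := by
              rw [mul_pow, ← pow_mul, ← pow_mul, mul_comm S0.card L, mul_comm v L]
          _ ≤ (81 / 64) ^ (K * v) * (4 / 3) ^ (L * v) := by
              apply mul_le_mul_of_nonneg_right _ (by positivity)
              exact pow_le_pow_right₀ (by norm_num) h6
          _ = ((81 / 64 : ℝ) ^ K * (4 / 3) ^ L) ^ v := by
              rw [mul_pow, ← pow_mul, ← pow_mul]
          _ = (3 ^ K * (4 / 3 : ℝ)) ^ v := by
              congr 1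
              rw [hL, pow_succ, pow_mul, ← mul_assoc, ← mul_pow]
              norm_num
          _ = ((r3 * q) ^ L) ^ v := by
              congr 1
              rw [mul_pow, hqL, hL, pow_succ, pow_mul, r3_pow]
              have := r3_pos
              field_simp
          _ = ((r3 * q) ^ v) ^ L := by rw [← pow_mul, ← pow_mul, mul_comm L v])
    refine h.trans ?_
    have h8 : (((M + M).card : ℝ) + 1) ^ (16 * K - 1) ≤ (K + 1) ^ (16 * K) * (v : ℝ) ^ (16 * K) := by
      have h9 : ((M + M).card : ℝ) + 1 ≤ (K + 1) * v := by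
        have : (M + M).card + 1 ≤ (K + 1) * v := by nlinarith
        exact_mod_cast this
      have h10 : (1 : ℝ) ≤ (M + M).card + 1 := by
        have : (0 : ℝ) ≤ (M + M).card := Nat.cast_nonneg _
        linarith
      calc (((M + M).card : ℝ) + 1) ^ (16 * K - 1) ≤ (((M + M).card : ℝ) + 1) ^ (16 * K) :=
            pow_le_pow_right₀ h10 (by omega)
        _ ≤ ((K + 1) * (v : ℝ)) ^ (16 * K) := pow_le_pow_left₀ (by positivity) h9 _
        _ = _ := by rw [mul_pow]
    calc (r3 * q) ^ v * (((M + M).card : ℝ) + 1) ^ (16 * K - 1)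
        ≤ (r3 * q) ^ v * ((K + 1) ^ (16 * K) * (v : ℝ) ^ (16 * K)) :=
          mul_le_mul_of_nonneg_left h8 (by positivity)
      _ = R * ((K + 1) ^ (16 * K) * ((v : ℝ) ^ (16 * K) * q ^ v)) := by
          rw [mul_pow, hR]; ring
      _ ≤ R * ((K + 1) ^ (16 * K) * B) := by
          apply mul_le_mul_of_nonneg_left _ hR0.le
          apply mul_le_mul_of_nonneg_left (hB v) (by positivity)
  -- large tiles
  have h4 : (F4.card : ℝ) ≤ R * ((M + M).card + 1) ^ (3 * K - 1) := by
    have hfF : ∀ S ∈ F4, S ∈ F := fun S hS => (Finset.mem_filter.1 hS).1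
    refine count_traces (M := M) F4 T (m0 + m0) hw0
      (fun S hS => ⟨hFsub S (hfF S hS), (hT S (hfF S hS)).1, (hT S (hfF S hS)).2⟩) (3 * K)
      (by
        intro S hS w hw hwT
        obtain ⟨_, h5⟩ := Finset.mem_filter.1 hS
        have h6 := trace_small (hFsub S (hfF S hS)) (hT S (hfF S hS)).1 w hw hwT
        have h7 : S.card * w.card < S.card * L := by
          calc S.card * w.card ≤ K * v := h6.trans hK
            _ < L * S.card := h5
            _ = S.card * L := mul_comm _ _
        have := Nat.lt_of_mul_lt_mul_left h7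
        omega) R hR0.le
      (by
        intro F' hF' htr
        have h5 := (fibre F' T (fun S hS => ⟨hFsub S (hfF S (hF' hS)), (hT S (hfF S (hF' hS))).1⟩)
          htr).1
        have h' : (F'.card : ℝ) ^ 3 ≤ R ^ 3 := by
          rw [hR3]
          exact_mod_cast h5
        exact le_of_pow_le_pow_left₀ (by norm_num) hR0.le h')
  have h5 : (1 : ℝ) ≤ (((M + M).card : ℝ) + 1) ^ (3 * K - 1) := by
    apply one_le_pow₀
    have : (0 : ℝ) ≤ (M + M).card := Nat.cast_nonneg _
    linarith
  set W := (((M + M).card : ℝ) + 1) ^ (3 * K - 1) with hW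
  have h6 : (F.card : ℝ) ≤ F1.card + F3.card + F4.card := by exact_mod_cast hsplit
  set D : ℝ := (K + 1) ^ (16 * K) * B with hD
  have hD0 : 0 ≤ D := by positivity
  calc (F.card : ℝ) ≤ R + R * D + R * W := by linarith
    _ ≤ (2 + D) * W * R := by
      nlinarith [mul_nonneg hR0.le hD0, mul_nonneg (mul_nonneg hR0.le hD0) (sub_nonneg.2 h5),
        mul_nonneg hR0.le (sub_nonneg.2 h5)]

end Pool.Agent.KS6_40.TI
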